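import Pool.Agent.MP_c71a08_an.H38.Saddle

/-!
The residues of `z ^ k * ((α - b z) / (z - r)) ^ (m + 1)` and their lower bound.
-/

set_option autoImplicit false

namespace Pool.Agent.MP_c71a08_an.H38

open Polynomial Finset Filter Topology

/-- The coefficient of `t ^ m` in `(r + δ t) ^ k (A - b t) ^ (m + 1)`. -/
noncomputable def cc (r δ A b : ℝ) (m k : ℕ) : ℝ :=
  ((C r + C δ * X) ^ k * (C A - C b * X) ^ (m + 1)).coeff m

theorem coeff_euler (W : ℝ[X]) (m : ℕ) : (X * derivative W).coeff m = m * W.coeff m := by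
  cases m with
  | zero => simp
  | succ m => rw [coeff_X_mul, coeff_derivative]; push_cast; ring

theorem cc_rec (r δ A b : ℝ) (m j : ℕ) :
    b * (j + 3) * cc r δ A b m (j + 2) =
      ((j + 2) * (δ * A + b * r + r * b) - (m + 1) * (δ * A)) * cc r δ A b m (j + 1) -
        (δ * A + b * r) * r * (j + 1) * cc r δ A b m j := by
  have h := coeff_euler ((C r + C δ * X) ^ (j + 1) * (C A - C b * X) ^ (m + 2)) m
  have e : C δ * (X * derivative ((C r + C δ * X) ^ (j + 1) * (C A - C b * X) ^ (m + 2))) -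
      C (δ * m) * ((C r + C δ * X) ^ (j + 1) * (C A - C b * X) ^ (m + 2)) =
      C ((j + 2) * (δ * A + b * r + r * b) - (m + 1) * (δ * A)) *
          ((C r + C δ * X) ^ (j + 1) * (C A - C b * X) ^ (m + 1)) -
        C ((δ * A + b * r) * r * (j + 1)) * ((C r + C δ * X) ^ j * (C A - C b * X) ^ (m + 1)) -
        C (b * (j + 3)) * ((C r + C δ * X) ^ (j + 2) * (C A - C b * X) ^ (m + 1)) := by
    simp only [derivative_mul, derivative_pow_succ, derivative_C,
      derivative_X, map_mul, map_add, map_sub, map_natCast, map_ofNat, map_one, Nat.cast_add,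
      Nat.cast_one]
    ring
  have h2 := congrArg (fun p => p.coeff m) e
  simp only [coeff_sub, coeff_C_mul, h] at h2
  unfold cc
  linear_combination h2

theorem coeff_lin (r δ : ℝ) (k i : ℕ) :
    ((C r + C δ * X) ^ k).coeff i = k.choose i * (δ ^ i * r ^ (k - i)) := by
  have e : (C r + C δ * X) ^ k = ((X + C r) ^ k).comp (C δ * X) := by
    simp [add_comm]
  rw [e, comp_C_mul_X_coeff, coeff_X_add_C_pow]
  ring

theorem choose_lim {i m : ℕ} (h : i ≤ m) :
    Tendsto (fun K : ℕ => (K.choose i : ℝ) / (K + 1) ^ m) atTop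
      (𝓝 ((i.factorial : ℝ)⁻¹ * 0 ^ (m - i))) := by
  have h0 : Tendsto (fun K : ℕ => 1 / ((K : ℝ) + 1)) atTop (𝓝 0) :=
    tendsto_one_div_add_atTop_nhds_zero_nat
  have h1 : Tendsto (fun K : ℕ => (K : ℝ) / (K + 1)) atTop (𝓝 1) := tendsto_natCast_div_add_atTop 1
  have h2 : Tendsto (fun K : ℕ => (K.choose i : ℝ) / (K ^ i / i.factorial)) atTop (𝓝 1) := by
    refine (Asymptotics.isEquivalent_iff_tendsto_one ?_).1 (isEquivalent_choose i)
    filter_upwards [eventually_ge_atTop 1] with K hK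
    have : (0 : ℝ) < K := by exact_mod_cast hK
    positivity
  have h3 := ((h2.mul (h1.pow i)).mul_const (i.factorial : ℝ)⁻¹).mul (h0.pow (m - i))
  simp only [one_pow, one_mul] at h3
  refine h3.congr' ?_
  filter_upwards [eventually_ge_atTop 1] with K hK
  have : (0 : ℝ) < K := by exact_mod_cast hK
  obtain ⟨d, rfl⟩ := Nat.exists_eq_add_of_le h
  rw [Nat.add_sub_cancel_left, pow_add, div_pow, div_pow, one_pow]
  field_simp

theorem cc_lim {r : ℝ} (hr : 0 < r) (δ A b : ℝ) (m : ℕ) :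
    Tendsto (fun K : ℕ => cc r δ A b m K / ((K + 1) ^ m * r ^ K)) atTop
      (𝓝 ((m.factorial : ℝ)⁻¹ * (δ / r) ^ m * A ^ (m + 1))) := by
  have h1 : Tendsto (fun K : ℕ => ∑ i ∈ range (m + 1), (K.choose i : ℝ) / (K + 1) ^ m *
      ((δ / r) ^ i * ((C A - C b * X) ^ (m + 1)).coeff (m - i))) atTop
      (𝓝 (∑ i ∈ range (m + 1), (i.factorial : ℝ)⁻¹ * 0 ^ (m - i) *
        ((δ / r) ^ i * ((C A - C b * X) ^ (m + 1)).coeff (m - i)))) :=
    tendsto_finsetSum _ fun i hi => (choose_lim (by simpa [Nat.lt_succ_iff] using hi)).mul_const _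
  rw [sum_range_succ, sum_eq_zero fun i hi => by
    rw [zero_pow (by have := mem_range.1 hi; omega)]; simp] at h1
  have e : ((C A - C b * X) ^ (m + 1)).coeff 0 = A ^ (m + 1) := by
    simp [coeff_zero_eq_eval_zero]
  simp only [Nat.sub_self, pow_zero, mul_one, zero_add, e, ← mul_assoc] at h1
  refine h1.congr' ?_
  filter_upwards [eventually_ge_atTop m] with K hK
  rw [cc, coeff_mul, Finset.Nat.sum_antidiagonal_eq_sum_range_succ_mk, sum_div]
  refine sum_congr rfl fun i hi => ?_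
  have hi' : i ≤ K := by have := mem_range.1 hi; omega
  obtain ⟨d, rfl⟩ := Nat.exists_eq_add_of_le hi'
  rw [coeff_lin, Nat.add_sub_cancel_left, pow_add r, div_pow]
  field_simp

theorem cc_lower {r δ A b α : ℝ} (hr : 0 < r) (hδ : 0 < δ) (hA : 0 < A) (hb : 0 < b)
    (hα : α = δ * A + b * r) (m q : ℕ) {s : ℝ} (hs : r < s)
    (h : QQ α b r (m + 1) (q + 1) s ≤ 0) :
    ∃ σ, r < σ ∧ σ ≤ s ∧ QQ α b r (m + 1) (q + 1) σ = 0 ∧
      gg α b r (m + 1) (q + 1) σ ≤ Real.exp 1 * δ * ((q + 1) * cc r δ A b m q) := by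
  have hδA : 0 < δ * A := mul_pos hδ hA
  have ha : α - b * r = δ * A := by rw [hα]; ring
  have hlim : Tendsto (fun K : ℕ => (K * cc r δ A b m (K - 1)) / (K ^ (m + 1) * r ^ K)) atTop
      (𝓝 ((m.factorial : ℝ)⁻¹ * (δ / r) ^ m * A ^ (m + 1) / r)) := by
    rw [← tendsto_add_atTop_iff_nat 1]
    refine ((cc_lim hr δ A b m).div_const r).congr fun K => ?_
    simp only [Nat.add_sub_cancel]
    push_cast
    field_simp
    ring
  obtain ⟨σ, h1, h2, h3, h4⟩ := saddle (y := fun K => K * cc r δ A b m (K - 1)) hr hb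
    (by linarith) (Nat.le_add_left 1 m) (fun k hk => by
      obtain ⟨j, rfl⟩ : ∃ j, k = j + 1 := ⟨k - 1, by omega⟩
      have := cc_rec r δ A b m j
      rw [ha, hα, show j + 1 + 2 - 1 = j + 2 from rfl, show j + 1 + 1 - 1 = j + 1 from rfl,
        Nat.add_sub_cancel]
      push_cast
      linear_combination (j + 2) * this)
    (by positivity) hlim (Nat.le_add_left 1 q) hs h
  refine ⟨σ, h1, h2, h3, ?_⟩
  simp only [Nat.add_sub_cancel, ha] at h4
  push_cast at h4
  have hg : 0 < gg α b r (m + 1) (q + 1) σ := by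
    have := (qq_lt hr (by linarith) (Nat.le_add_left 1 m) h1 h3.le).1
    exact mul_pos (pow_pos (hr.trans h1) _) (pow_pos (div_pos (by linarith) (by linarith)) _)
  set Y := ((q : ℝ) + 1) * cc r δ A b m q
  have hY : 0 < Y := (mul_pos_iff_of_pos_right (by positivity)).1
    (lt_of_lt_of_le (mul_pos (by positivity) hg) h4)
  have h5 := fact_le m
  have h6 : (Real.exp 1 * (δ * A) / (r * (m + 1))) ^ (m + 1) ≤
      (m.factorial : ℝ)⁻¹ * (δ / r) ^ m * A ^ (m + 1) / r * (Real.exp 1 * δ) := by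
    have e1 : (Real.exp 1 * (δ * A) / (r * (m + 1))) ^ (m + 1) =
        Real.exp (m + 1) / (m + 1) ^ (m + 1) * ((δ / r) ^ (m + 1) * A ^ (m + 1)) := by
      rw [show Real.exp (m + 1) = Real.exp 1 ^ (m + 1) by rw [← Real.exp_nat_mul]; simp,
        ← mul_pow, ← div_pow, ← mul_pow]
      congr 1
      field_simp
    have e2 : (m.factorial : ℝ)⁻¹ * (δ / r) ^ m * A ^ (m + 1) / r * (Real.exp 1 * δ) =
        Real.exp 1 / m.factorial * ((δ / r) ^ (m + 1) * A ^ (m + 1)) := by
      rw [pow_succ (δ / r)]; field_simp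
    rw [e1, e2]
    refine mul_le_mul_of_nonneg_right ?_ (by positivity)
    rw [div_le_div_iff₀ (by positivity) (by positivity)]
    rw [Nat.factorial_succ] at h5
    push_cast at h5
    refine le_of_mul_le_mul_left ?_ (show (0 : ℝ) < m + 1 by positivity)
    linarith
  refine le_of_mul_le_mul_left (h4.trans ((mul_le_mul_of_nonneg_left h6 hY.le).trans_eq ?_))
    (by positivity)
  ring

end Pool.Agent.MP_c71a08_an.H38
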