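import Pool.Agent.MP_c71a08_an.H38.Core

/-!
The upper bound for powers of a contraction of `ℓ^∞_n` with small spectral radius.
-/

set_option autoImplicit false

namespace Pool.Agent.MP_c71a08_an.H38

open Polynomial Finset Matrix

theorem up_gen {n : ℕ} (T : Matrix (Fin n) (Fin n) ℂ) (hT : ∀ i, ∑ j, ‖T i j‖ ≤ 1)
    {r s θ : ℝ} (hr : 0 ≤ r) (hrs : r < s) (hs1 : s ≤ 1) (hθ0 : 0 < θ) (hθ : θ < 1)
    (hs : ∀ μ ∈ spectrum ℂ T, ‖μ‖ ≤ r) (q : ℕ) (i : Fin n) :
    (∑ j, ‖(T ^ q) i j‖) ^ 2 ≤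
      n * (1 - θ)⁻¹ * (s ^ q * ((θ⁻¹ - θ * r * s) / (s - r)) ^ n) ^ 2 := by
  have hs0 : 0 < s := hr.trans_lt hrs
  set A : Matrix (Fin n) (Fin n) ℂ := (θ : ℂ) • T with hA
  set f : Module.End ℂ (Fin n → ℂ) := Matrix.toLinAlgEquiv' A with hf
  have hfv : ∀ v, f v = (θ : ℂ) • (T *ᵥ v) := fun v => by
    rw [hf, Matrix.toLinAlgEquiv'_apply, hA, smul_mulVec]
  have hTv : ∀ v : Fin n → ℂ, ‖T *ᵥ v‖ ≤ ‖v‖ := fun v => by
    refine (pi_norm_le_iff_of_nonneg (norm_nonneg v)).2 fun a => ?_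
    calc ‖(T *ᵥ v) a‖ ≤ ∑ j, ‖T a j * v j‖ := norm_sum_le univ fun j => T a j * v j
      _ ≤ ∑ j, ‖T a j‖ * ‖v‖ := sum_le_sum fun j _ => by
          rw [norm_mul]; exact mul_le_mul_of_nonneg_left (norm_le_pi_norm v j) (norm_nonneg _)
      _ ≤ ‖v‖ := by rw [← sum_mul]; exact mul_le_of_le_one_left (norm_nonneg v) (hT a)
  have hfn : ∀ v, ‖f v‖ ≤ θ * ‖v‖ := fun v => by
    rw [hfv, norm_smul, Complex.norm_real, Real.norm_of_nonneg hθ0.le]
    exact mul_le_mul_of_nonneg_left (hTv v) hθ0.le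
  have hfp : ∀ (j : ℕ) v, (f ^ j) v = (θ : ℂ) ^ j • (T ^ j *ᵥ v) := fun j v => by
    rw [hf, ← map_pow, Matrix.toLinAlgEquiv'_apply, hA, _root_.smul_pow, smul_mulVec]
  have hθc : (θ : ℂ) ≠ 0 := Complex.ofReal_ne_zero.2 hθ0.ne'
  have hroot : ∀ a ∈ A.charpoly.roots.toList, ‖a‖ ≤ θ * r := fun a ha => by
    have h1 : a ∈ spectrum ℂ A :=
      mem_spectrum_iff_isRoot_charpoly.2 (isRoot_of_mem_roots (Multiset.mem_toList.1 ha))
    have h2 : (θ : ℂ)⁻¹ * a ∈ spectrum ℂ T := by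
      have h3 := (spectrum.smul_mem_smul_iff (R := ℂ) (a := T) (s := (θ : ℂ)⁻¹ * a)
        (r := Units.mk0 _ hθc)).1
      apply h3
      rw [Units.smul_def, Units.smul_def, Units.val_mk0, smul_eq_mul, mul_inv_cancel_left₀ hθc]
      exact h1
    have h4 := hs _ h2
    rw [norm_mul, norm_inv, Complex.norm_real, Real.norm_of_nonneg hθ0.le,
      inv_mul_le_iff₀ hθ0] at h4
    exact h4
  have hlen : A.charpoly.roots.toList.length = n := by
    rw [Multiset.length_toList, IsAlgClosed.card_roots_eq_natDegree, charpoly_natDegree_eq_dim,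
      Fintype.card_fin]
  have hprod : (A.charpoly.roots.toList.map fun a => X - C a).prod = A.charpoly := by
    conv_rhs => rw [(IsAlgClosed.splits A.charpoly).eq_prod_roots_of_monic A.charpoly_monic]
    rw [← Multiset.prod_coe, ← Multiset.map_coe, Multiset.coe_toList]
  choose x hx1 hx2 using fun j => Complex.exists_norm_eq_mul_self ((T ^ q) i j)
  have hxn : ‖x‖ ≤ 1 := (pi_norm_le_iff_of_nonneg zero_le_one).2 fun j => (hx1 j).le
  have hTp : ∀ j : ℕ, ‖T ^ j *ᵥ x‖ ≤ 1 := fun j => by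
    induction j with
    | zero => simpa using hxn
    | succ j ih => rw [pow_succ', ← mulVec_mulVec]; exact (hTv _).trans ih
  have hsr : 0 < s - r := by linarith
  have hθs : θ * s ≤ 1 := by nlinarith
  have key := core f (LinearMap.proj i) (θ := θ) (r := θ * r) (R := (θ * s)⁻¹) (L := (1 - θ)⁻¹)
    (k := (θ⁻¹ - θ * r * s) / (s - r)) hθ0.le hθ hfn (fun v => norm_le_pi_norm v i)
    ((one_le_inv₀ (by positivity)).2 hθs) (by positivity)
    (by rw [← div_eq_mul_inv, div_lt_one (by positivity)]; nlinarith)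
    (by field_simp) _ hroot x
    (by rw [hprod, hf, aeval_algHom_apply, aeval_self_charpoly]; simp)
    (fun J => by
      refine le_trans (sum_le_sum fun j _ => ?_ : _ ≤ ∑ j ∈ range J, θ ^ j) ?_
      · rw [hfp, LinearMap.proj_apply, Pi.smul_apply, norm_smul, norm_pow, Complex.norm_real,
          Real.norm_of_nonneg hθ0.le]
        have h1 : ‖(T ^ j *ᵥ x) i‖ ≤ 1 := (norm_le_pi_norm _ i).trans (hTp j)
        have h2 : θ ^ j ≤ 1 := pow_le_one₀ hθ0.le hθ.le
        have h3 : 0 ≤ θ ^ j := by positivity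
        have h4 : θ ^ j * ‖(T ^ j *ᵥ x) i‖ ≤ θ ^ j := mul_le_of_le_one_right h3 h1
        have h5 : 0 ≤ θ ^ j * ‖(T ^ j *ᵥ x) i‖ := by positivity
        nlinarith
      · rw [← tsum_geometric_of_lt_one hθ0.le hθ]
        exact (summable_geometric_of_lt_one hθ0.le hθ).sum_le_tsum _ fun _ _ => by positivity)
    (q + 1)
  rw [hlen] at key
  have h1 := (single_le_sum (f := fun j => (θ * s)⁻¹ ^ (2 * j) * ‖LinearMap.proj (R := ℂ)
    (φ := fun _ : Fin n => ℂ) i ((f ^ j) x)‖ ^ 2) (fun _ _ => by positivity)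
    (self_mem_range_succ q)).trans key
  have h2 : (T ^ q *ᵥ x) i = ((∑ j, ‖(T ^ q) i j‖ : ℝ) : ℂ) := by
    simp only [mulVec, dotProduct, Complex.ofReal_sum, hx2, mul_comm]
  have h3 : 0 ≤ ∑ j, ‖(T ^ q) i j‖ := by positivity
  simp only [hfp, LinearMap.proj_apply, Pi.smul_apply, norm_smul, norm_pow, Complex.norm_real,
    Real.norm_of_nonneg hθ0.le, h2, Real.norm_of_nonneg h3] at h1
  have h4 : (∑ j, ‖(T ^ q) i j‖) ^ 2 =
      (s ^ q) ^ 2 * ((θ * s)⁻¹ ^ (2 * q) * (θ ^ q * ∑ j, ‖(T ^ q) i j‖) ^ 2) := by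
    rw [inv_pow, mul_pow, pow_mul', pow_mul']
    field_simp
  rw [h4]
  refine (mul_le_mul_of_nonneg_left h1 (by positivity)).trans (le_of_eq ?_)
  rw [pow_mul']
  ring

theorem fact_le (m : ℕ) : (m + 1).factorial * Real.exp (m + 1) ≤
    Real.exp 1 * (m + 1) * (m + 1) ^ (m + 1) := by
  induction m with
  | zero => simp
  | succ m ih =>
    have hm : (0 : ℝ) < m + 1 := by positivity
    have h1 : Real.exp (1 / (m + 2)) ≤ (m + 2) / (m + 1) := by
      have h := Real.add_one_le_exp (-(1 / (m + 2 : ℝ)))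
      have e : -(1 / (m + 2 : ℝ)) + 1 = (m + 1) / (m + 2) := by field_simp; ring
      rwa [Real.exp_neg, e, le_inv_comm₀ (by positivity) (Real.exp_pos _), inv_div] at h
    have h2 : Real.exp 1 ≤ ((m + 2) / (m + 1)) ^ (m + 2) := by
      have h := pow_le_pow_left₀ (Real.exp_pos _).le h1 (m + 2)
      rw [← Real.exp_nat_mul] at h
      refine le_trans (le_of_eq ?_) h
      congr 1
      push_cast
      field_simp
    rw [div_pow, le_div_iff₀ (by positivity)] at h2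
    rw [Nat.factorial_succ (m + 1)]
    push_cast
    rw [Real.exp_add (m + 1 : ℝ) 1]
    have h3 := mul_le_mul_of_nonneg_left ih (show 0 ≤ (m + 2 : ℝ) * Real.exp 1 by positivity)
    have h4 := mul_le_mul_of_nonneg_left h2 (show 0 ≤ (m + 2 : ℝ) * Real.exp 1 by positivity)
    have e1 : (m + 1 : ℝ) ^ (m + 2) = (m + 1) * (m + 1) ^ (m + 1) := by ring
    have e2 : (m + 1 + 1 : ℝ) ^ (m + 1 + 1) = (m + 2) ^ (m + 2) := by ring
    rw [e2]
    rw [e1] at h4
    nlinarith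

theorem upper {r : ℝ} (h0 : 0 < r) (h1 : r < 1) : ∃ C : ℝ, ∃ n0 : ℕ, ∀ n ≥ n0,
    ∀ T : Matrix (Fin n) (Fin n) ℂ, (∀ i, ∑ j, ‖T i j‖ ≤ 1) → (∀ μ ∈ spectrum ℂ T, ‖μ‖ ≤ r) →
      ∀ i, ∑ j, ‖(T ^ (n ^ 2 - n + 1)) i j‖ ≤ C * n ^ 3 *
        (((n ^ 2 - n + 1).choose (n - 1) : ℝ) * r ^ (n ^ 2 - n + 1 - (n - 1)) *
          (1 - r ^ 2) ^ (n - 1)) := by
  have hr2 : 0 < 1 - r ^ 2 := by nlinarith
  obtain ⟨m0, hm0⟩ := exists_nat_ge (1 / (1 - r))
  refine ⟨6 / r * Real.exp (2 / (1 - r ^ 2)) * Real.exp 1 ^ 2, m0 + 2, fun n hn T hT hs i => ?_⟩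
  obtain ⟨k, rfl⟩ : ∃ k, n = k + 2 := ⟨n - 2, by omega⟩
  have hq : (k + 2) ^ 2 - (k + 2) + 1 = (k + 1) ^ 2 + 1 + (k + 1) := by
    have : (k + 2) ^ 2 = k + 2 + ((k + 1) ^ 2 + (k + 1)) := by ring
    omega
  rw [hq, show k + 2 - 1 = k + 1 from rfl, Nat.add_sub_cancel]
  set p : ℕ := (k + 1) ^ 2 + 1 with hp
  set m : ℝ := k + 1 with hm
  have hm1 : 1 ≤ m := by rw [hm]; linarith [Nat.cast_nonneg (α := ℝ) k]
  have hpm : (p : ℝ) = m ^ 2 + 1 := by rw [hp, hm]; push_cast; ring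
  have hp0 : (0 : ℝ) < p := by rw [hpm]; positivity
  have hmr : 1 ≤ m * (1 - r) := by
    rw [div_le_iff₀ (by linarith)] at hm0
    have : (m0 : ℝ) ≤ m := by
      rw [hm]; have : m0 ≤ k + 1 := by omega
      exact_mod_cast this
    nlinarith
  have hmp : m / p ≤ 1 / m := by
    rw [div_le_div_iff₀ hp0 (by linarith), hpm]; nlinarith
  have hmp0 : 0 < m / p := by positivity
  have hs1 : r * (1 + m / p) ≤ 1 := by
    have : 1 / m ≤ 1 - r := by rw [div_le_iff₀ (by linarith)]; linarith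
    nlinarith
  have key := up_gen T hT (r := r) (s := r * (1 + m / p)) (θ := m / (m + 1)) h0.le
    (by nlinarith) hs1 (by positivity) (by rw [div_lt_one (by linarith)]; linarith) hs
    (p + (k + 1)) i
  have e1 : (1 - m / (m + 1))⁻¹ = m + 1 := by field_simp; ring
  have e2 : ((k + 2 : ℕ) : ℝ) = m + 1 := by rw [hm]; push_cast; ring
  have e3 : r * (1 + m / p) - r = r * (m / p) := by ring
  rw [e1, e2, ← sq, ← mul_pow, e3] at key
  rw [e2]
  set a := (m / (m + 1))⁻¹ - m / (m + 1) * r * (r * (1 + m / p)) with ha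
  have ha1 : a ≤ 1 - r ^ 2 + 2 / m := by
    have b1 : (m / (m + 1))⁻¹ = 1 + 1 / m := by field_simp
    have b2 : m / (m + 1) = 1 - 1 / (m + 1) := by field_simp; ring
    have b3 : 1 / (m + 1) ≤ 1 / m := one_div_le_one_div_of_le (by linarith) (by linarith)
    have b4 : r * (r * (1 + m / p)) ≤ 1 := by nlinarith
    have b5 : r ^ 2 ≤ r * (r * (1 + m / p)) := by nlinarith [mul_pos (mul_pos h0 h0) hmp0]
    have b6 : 1 / (m + 1) * (r * (r * (1 + m / p))) ≤ 1 / m :=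
      (mul_le_of_le_one_right (by positivity) b4).trans b3
    have b7 : 2 / m = 1 / m + 1 / m := by ring
    rw [ha, b1, b2]
    nlinarith
  have ha0 : 0 ≤ a := by
    have b1 : 1 ≤ (m / (m + 1))⁻¹ := (one_le_inv₀ (by positivity)).2
      (by rw [div_le_one (by linarith)]; linarith)
    have b2 : m / (m + 1) ≤ 1 := by rw [div_le_one (by linarith)]; linarith
    have b4 : r * (r * (1 + m / p)) ≤ 1 := by nlinarith
    have b5 : m / (m + 1) * (r * (r * (1 + m / p))) ≤ 1 :=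
      mul_le_one₀ b2 (by positivity) b4
    rw [ha, mul_assoc]
    linarith
  have key2 := (pow_le_pow_iff_left₀ (by positivity) (by positivity) two_ne_zero).1 key
  refine key2.trans ?_
  have c1 : (1 + m / p) ^ (p + (k + 1)) ≤ Real.exp m * Real.exp 1 := by
    have h := pow_le_pow_left₀ (by positivity) (Real.add_one_le_exp (m / p)) (p + (k + 1))
    rw [add_comm, ← Real.exp_nat_mul] at h
    refine h.trans ?_
    rw [← Real.exp_add, Real.exp_le_exp]
    push_cast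
    rw [← hm, add_mul, mul_div_cancel₀ _ hp0.ne', ← mul_div_assoc, add_le_add_iff_left,
      div_le_one hp0, hpm]
    linarith
  have c2 : a ^ (k + 1) ≤ (1 - r ^ 2) ^ (k + 1) * Real.exp (2 / (1 - r ^ 2)) := by
    have h3 : a ≤ (1 - r ^ 2) * Real.exp (2 / (1 - r ^ 2) / m) := by
      refine ha1.trans (le_trans (le_of_eq ?_)
        (mul_le_mul_of_nonneg_left (Real.add_one_le_exp _) hr2.le))
      field_simp
      ring
    refine (pow_le_pow_left₀ ha0 h3 _).trans (le_of_eq ?_)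
    rw [mul_pow, ← Real.exp_nat_mul]
    congr 2
    push_cast
    rw [← hm]
    field_simp
  have c3 : a / (r * (m / p)) ≤ 6 / r * (m + 1) := by
    have h3 : 2 / m ≤ 2 := div_le_self (by norm_num) hm1
    have h4 : a ≤ 3 := by nlinarith [sq_nonneg r]
    rw [div_le_iff₀ (by positivity)]
    refine h4.trans ?_
    have : 6 / r * (m + 1) * (r * (m / p)) = 6 * ((m + 1) * m) / p := by field_simp
    rw [this, le_div_iff₀ hp0, hpm]
    nlinarith
  have c4 : (p : ℝ) ^ (k + 1) ≤ (k + 1).factorial * ((p + (k + 1)).choose (k + 1) : ℝ) := by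
    have h := Nat.pow_le_choose (α := ℝ) (k + 1) (p + (k + 1))
    rw [show p + (k + 1) + 1 - (k + 1) = p + 1 by omega, div_le_iff₀' (by positivity)] at h
    refine le_trans ?_ h
    push_cast
    exact pow_le_pow_left₀ hp0.le (by linarith) _
  have c5 := fact_le k
  rw [← hm] at c5
  have c6 : Real.exp m * (p / m) ^ (k + 1) ≤
      Real.exp 1 * (m + 1) * ((p + (k + 1)).choose (k + 1) : ℝ) := by
    rw [div_pow, ← mul_div_assoc, div_le_iff₀ (by positivity)]
    calc Real.exp m * (p : ℝ) ^ (k + 1)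
        ≤ Real.exp m * ((k + 1).factorial * ((p + (k + 1)).choose (k + 1) : ℝ)) := by gcongr
      _ = ((k + 1).factorial * Real.exp m) * ((p + (k + 1)).choose (k + 1) : ℝ) := by ring
      _ ≤ (Real.exp 1 * m * m ^ (k + 1)) * ((p + (k + 1)).choose (k + 1) : ℝ) := by gcongr
      _ ≤ (Real.exp 1 * (m + 1) * m ^ (k + 1)) * ((p + (k + 1)).choose (k + 1) : ℝ) := by
          gcongr; linarith
      _ = _ := by ring
  have e4 : (m + 1) * ((r * (1 + m / p)) ^ (p + (k + 1)) * (a / (r * (m / p))) ^ (k + 2)) =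
      (m + 1) * r ^ p * ((1 + m / p) ^ (p + (k + 1)) * (p / m) ^ (k + 1)) * a ^ (k + 1) *
        (a / (r * (m / p))) := by
    rw [mul_pow, pow_add r, pow_succ _ (k + 1), div_pow, div_pow, mul_pow, div_pow]
    field_simp
  rw [e4]
  have c7 : (1 + m / p) ^ (p + (k + 1)) * (p / m) ^ (k + 1) ≤
      Real.exp 1 * (Real.exp 1 * (m + 1) * ((p + (k + 1)).choose (k + 1) : ℝ)) := by
    refine (mul_le_mul_of_nonneg_right c1 (by positivity)).trans ?_
    rw [mul_comm (Real.exp m), mul_assoc]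
    exact mul_le_mul_of_nonneg_left c6 (Real.exp_pos _).le
  refine le_trans (mul_le_mul (mul_le_mul (mul_le_mul_of_nonneg_left c7 (by positivity)) c2
    (by positivity) (by positivity)) c3 (by positivity) (by positivity)) (le_of_eq ?_)
  ring

end Pool.Agent.MP_c71a08_an.H38
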