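import Mathlib

namespace Pool.Agent.MP_c71a08_an

/-- `H_n(r) = inf { s ^ q ((1 - r s) / (s - r)) ^ (n - 1) : r < s ≤ 1 }`, `q = n² - n + 1`. -/
noncomputable def H (n : ℕ) (r : ℝ) : ℝ :=
  sInf {t : ℝ | ∃ s : ℝ, r < s ∧ s ≤ 1 ∧
    t = s ^ (n ^ 2 - n + 1) * ((1 - r * s) / (s - r)) ^ (n - 1)}

end Pool.Agent.MP_c71a08_an
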