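import Mathlib

/-!
A weighted square estimate for orbits of a contraction killed by a polynomial.
-/

set_option autoImplicit false

namespace Pool.Agent.MP_c71a08_an.H38

open Polynomial Finset Filter Topology
open scoped ComplexConjugate

theorem sq_id (a b c : ℂ) : ‖a - conj c * b‖ ^ 2 =
      ‖a‖ ^ 2 + ‖c‖ ^ 2 * ‖b‖ ^ 2 - 2 * (c * a * conj b).re ∧
    ‖b - c * a‖ ^ 2 = ‖b‖ ^ 2 + ‖c‖ ^ 2 * ‖a‖ ^ 2 - 2 * (c * a * conj b).re := by
  simp only [Complex.sq_norm, Complex.normSq_apply, Complex.sub_re, Complex.sub_im,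
    Complex.mul_re, Complex.mul_im, Complex.conj_re, Complex.conj_im]
  constructor <;> ring

theorem term_le (a b c : ℂ) {R k : ℝ} (hR : 1 ≤ R) (hc : ‖c‖ ≤ 1) (h1 : ‖c‖ * R < 1)
    (hk : k * (1 - ‖c‖ * R) = R - ‖c‖) :
    R ^ 2 * ‖a - conj c * b‖ ^ 2 + k * R * (1 - ‖c‖ ^ 2) * (R ^ 2 * ‖b‖ ^ 2 - ‖a‖ ^ 2) ≤
      k ^ 2 * (R ^ 2 * ‖b - c * a‖ ^ 2) := by
  obtain ⟨e1, e2⟩ := sq_id a b c
  have hp : (c * a * conj b).re ≤ ‖c‖ * ‖a‖ * ‖b‖ := by
    refine (Complex.re_le_norm _).trans (le_of_eq ?_)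
    simp
  rw [e1, e2]
  set t := ‖c‖
  set p := (c * a * conj b).re
  set A := ‖a‖
  set B := ‖b‖
  have ht : 0 ≤ t := norm_nonneg c
  have hk1 : 1 ≤ k := by
    by_contra h
    push Not at h
    nlinarith
  have h2 : k ^ 2 - t ^ 2 - k * R * (1 - t ^ 2) = (k ^ 2 - 1) * t * R := by
    linear_combination (k - t) * hk
  have h3 : R ^ 2 * (k ^ 2 * t ^ 2 - 1) + k * R * (1 - t ^ 2) = (k ^ 2 - 1) * t * R := by
    linear_combination (R - k * R * t) * hk
  have h4 : 0 ≤ (k ^ 2 - 1) * R * (t * (R * B - A) ^ 2 + 2 * R * (t * A * B - p)) :=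
    mul_nonneg (mul_nonneg (by nlinarith) (by linarith))
      (add_nonneg (mul_nonneg ht (sq_nonneg _)) (mul_nonneg (by linarith) (by linarith)))
  have h5 : k ^ 2 * (R ^ 2 * (B ^ 2 + t ^ 2 * A ^ 2 - 2 * p)) -
      (R ^ 2 * (A ^ 2 + t ^ 2 * B ^ 2 - 2 * p) + k * R * (1 - t ^ 2) * (R ^ 2 * B ^ 2 - A ^ 2)) =
      (k ^ 2 - 1) * R * (t * (R * B - A) ^ 2 + 2 * R * (t * A * B - p)) := by
    linear_combination R ^ 2 * B ^ 2 * h2 + A ^ 2 * h3
  linarith

theorem flat (y : ℕ → ℂ) (c : ℂ) (J : ℕ) :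
    ∑ j ∈ range J, ‖y (j + 1) - c * y j‖ ^ 2 + (1 - ‖c‖ ^ 2) * ‖y 0‖ ^ 2 =
      ∑ j ∈ range J, ‖y j - conj c * y (j + 1)‖ ^ 2 + (1 - ‖c‖ ^ 2) * ‖y J‖ ^ 2 := by
  induction J with
  | zero => simp
  | succ J ih =>
    obtain ⟨e1, e2⟩ := sq_id (y J) (y (J + 1)) c
    rw [sum_range_succ, sum_range_succ, e1, e2]
    linear_combination ih

theorem weighted (y : ℕ → ℂ) (c : ℂ) {R k : ℝ} (hR : 1 ≤ R) (hc : ‖c‖ ≤ 1) (h1 : ‖c‖ * R < 1)
    (hk : k * (1 - ‖c‖ * R) = R - ‖c‖) (J : ℕ) :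
    R ^ 2 * ∑ j ∈ range J, R ^ (2 * j) * ‖y j - conj c * y (j + 1)‖ ^ 2 +
        k * R * (1 - ‖c‖ ^ 2) * (R ^ (2 * J) * ‖y J‖ ^ 2 - ‖y 0‖ ^ 2) ≤
      k ^ 2 * (R ^ 2 * ∑ j ∈ range J, R ^ (2 * j) * ‖y (j + 1) - c * y j‖ ^ 2) := by
  induction J with
  | zero => simp
  | succ J ih =>
    have h := mul_le_mul_of_nonneg_left (term_le (y J) (y (J + 1)) c hR hc h1 hk)
      (show 0 ≤ R ^ (2 * J) by positivity)
    rw [sum_range_succ, sum_range_succ, show 2 * (J + 1) = 2 * J + 2 by ring, pow_add]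
    nlinarith

theorem core {V : Type*} [NormedAddCommGroup V] [NormedSpace ℂ V] [FiniteDimensional ℂ V]
    (f : Module.End ℂ V) (φ : V →ₗ[ℂ] ℂ) {θ r R L k : ℝ} (hθ0 : 0 ≤ θ) (hθ : θ < 1)
    (hf : ∀ v, ‖f v‖ ≤ θ * ‖v‖) (hφ : ∀ v, ‖φ v‖ ≤ ‖v‖) (hR : 1 ≤ R) (hr0 : 0 ≤ r)
    (hrR : r * R < 1) (hk : k * (1 - r * R) = R - r) (l : List ℂ) (hl : ∀ a ∈ l, ‖a‖ ≤ r) :
    ∀ x, aeval f (l.map fun a => X - C a).prod x = 0 →
      (∀ J, ∑ j ∈ range J, ‖φ ((f ^ j) x)‖ ^ 2 ≤ L) →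
      ∀ J, ∑ j ∈ range J, R ^ (2 * j) * ‖φ ((f ^ j) x)‖ ^ 2 ≤
        l.length * k ^ (2 * l.length) * L := by
  have hr1 : r < 1 := by nlinarith
  have hk1 : 1 ≤ k := by
    by_contra h
    push Not at h
    nlinarith
  have hpow : ∀ (v : V) (j : ℕ), ‖(f ^ j) v‖ ≤ θ ^ j * ‖v‖ := by
    intro v j
    induction j with
    | zero => simp
    | succ j ih =>
      rw [pow_succ', Module.End.mul_apply, pow_succ', mul_assoc]
      exact (hf _).trans (mul_le_mul_of_nonneg_left ih hθ0)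
  induction l with
  | nil =>
    intro x hx _ J
    have : x = 0 := by simpa using hx
    simp [this]
  | cons c l ih =>
    intro x hx hL J
    have hc : ‖c‖ ≤ r := hl c (by simp)
    have hc0 := norm_nonneg c
    have hL0 : 0 ≤ L := by simpa using hL 0
    set g : Module.End ℂ V := aeval f (1 - C (conj c) * X) with hg
    have hgv : ∀ v, g v = v - conj c • f v := fun v => by simp [hg]
    have hinj : Function.Injective g := by
      rw [injective_iff_map_eq_zero]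
      intro v hv
      rw [hgv, sub_eq_zero] at hv
      have h1 : ‖v‖ ≤ ‖c‖ * (θ * ‖v‖) := by
        conv_lhs => rw [hv]
        rw [norm_smul, Complex.norm_conj]
        exact mul_le_mul_of_nonneg_left (hf v) hc0
      have h2 : ‖c‖ * θ < 1 := by nlinarith
      have := norm_nonneg v
      exact norm_eq_zero.1 (by nlinarith)
    obtain ⟨w, hw⟩ := LinearMap.injective_iff_surjective.1 hinj x
    set y : ℕ → ℂ := fun j => φ ((f ^ j) w) with hy
    have hfj : ∀ j, (f ^ j) (f w) = (f ^ (j + 1)) w := fun j => by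
      rw [pow_succ, Module.End.mul_apply]
    have hu : ∀ j, φ ((f ^ j) x) = y j - conj c * y (j + 1) := fun j => by
      rw [← hw, hgv]; simp [hy, hfj]
    have hv : ∀ j, φ ((f ^ j) (f w - c • w)) = y (j + 1) - c * y j := fun j => by
      simp [hy, hfj]
    have hker : aeval f (l.map fun a => X - C a).prod (f w - c • w) = 0 := by
      apply hinj
      have e1 : f w - c • w = aeval f (X - C c) w := by simp
      rw [map_zero, ← hx, ← hw, e1, hg, ← Module.End.mul_apply, ← Module.End.mul_apply,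
        ← Module.End.mul_apply, ← map_mul, ← map_mul, ← map_mul, List.map_cons, List.prod_cons]
      congr 2
      ring
    have hlim : Tendsto (fun j => L + (θ ^ j * ‖w‖) ^ 2) atTop (𝓝 L) := by
      have := (((tendsto_pow_atTop_nhds_zero_of_lt_one hθ0 hθ).mul_const ‖w‖).pow 2).const_add L
      simpa using this
    have hc2 : 0 ≤ 1 - ‖c‖ ^ 2 := by nlinarith
    have hflat : ∀ J, ∑ j ∈ range J, ‖y (j + 1) - c * y j‖ ^ 2 + (1 - ‖c‖ ^ 2) * ‖y 0‖ ^ 2 ≤ L := by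
      intro J
      refine ge_of_tendsto hlim (eventually_atTop.2 ⟨J, fun J' hJ' => ?_⟩)
      have h1 := flat y c J'
      have h2 : ∑ j ∈ range J, ‖y (j + 1) - c * y j‖ ^ 2 ≤
          ∑ j ∈ range J', ‖y (j + 1) - c * y j‖ ^ 2 :=
        sum_le_sum_of_subset_of_nonneg (range_mono hJ') fun _ _ _ => sq_nonneg _
      have h3 := hL J'
      simp only [hu] at h3
      have h4 : ‖y J'‖ ^ 2 ≤ (θ ^ J' * ‖w‖) ^ 2 :=
        pow_le_pow_left₀ (norm_nonneg _) ((hφ _).trans (hpow w J')) 2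
      nlinarith [sq_nonneg ‖c‖, sq_nonneg ‖y J'‖]
    have h0 : (1 - ‖c‖ ^ 2) * ‖y 0‖ ^ 2 ≤ L := by simpa using hflat 0
    have hI := ih (fun a ha => hl a (by simp [ha])) _ hker (fun J => by
      simp only [hv]
      have := hflat J
      nlinarith [mul_nonneg hc2 (sq_nonneg ‖y 0‖)]) J
    simp only [hv] at hI
    have hcR : ‖c‖ * R < 1 := lt_of_le_of_lt (by nlinarith) hrR
    set κ := (R - ‖c‖) / (1 - ‖c‖ * R) with hκ
    have hκ1 : κ * (1 - ‖c‖ * R) = R - ‖c‖ := div_mul_cancel₀ _ (by linarith)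
    have hκ0 : 0 ≤ κ := div_nonneg (by linarith) (by linarith)
    have hκk : κ ≤ k := by
      rw [hκ, div_le_iff₀ (by linarith)]
      have h1 : 0 ≤ (k * R - 1) * (r - ‖c‖) := mul_nonneg (by nlinarith) (by linarith)
      nlinarith
    have hW := weighted y c hR (by linarith) hcR hκ1 J
    simp only [hu, List.length_cons]
    set S := ∑ j ∈ range J, R ^ (2 * j) * ‖y j - conj c * y (j + 1)‖ ^ 2
    set S' := ∑ j ∈ range J, R ^ (2 * j) * ‖y (j + 1) - c * y j‖ ^ 2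
    have hS' : 0 ≤ S' := sum_nonneg fun _ _ => by positivity
    have h1 : 0 ≤ κ * R * (1 - ‖c‖ ^ 2) * (R ^ (2 * J) * ‖y J‖ ^ 2) := by positivity
    have h2 : κ * R * ((1 - ‖c‖ ^ 2) * ‖y 0‖ ^ 2) ≤ k * R ^ 2 * L :=
      mul_le_mul (mul_le_mul hκk (by nlinarith) (by linarith) (by linarith)) h0
        (by positivity) (by positivity)
    have h3 : κ ^ 2 * (R ^ 2 * S') ≤ k ^ 2 * (R ^ 2 * (l.length * k ^ (2 * l.length) * L)) :=
      mul_le_mul (pow_le_pow_left₀ hκ0 hκk 2) (mul_le_mul_of_nonneg_left hI (by positivity))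
        (by positivity) (by positivity)
    have h4 : k ≤ k ^ (2 * (l.length + 1)) := le_self_pow₀ hk1 (by omega)
    have h5 : k * R ^ 2 * L ≤ k ^ (2 * (l.length + 1)) * R ^ 2 * L := by gcongr
    refine le_of_mul_le_mul_left ?_ (show 0 < R ^ 2 by positivity)
    have h6 : k ^ (2 * (l.length + 1)) = k ^ 2 * k ^ (2 * l.length) := by ring
    push_cast
    rw [h6] at h5 ⊢
    nlinarith

end Pool.Agent.MP_c71a08_an.H38
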