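import Pool.Agent.MP_c71a08_an.Defs
import Pool.Agent.MP_c71a08_an.H38.Defs
import Pool.Agent.MP_c71a08_an.H32.Base2

/-!
The uniform lower bound away from `r = 0`.
-/

set_option autoImplicit false

namespace Pool.Agent.MP_c71a08_an.H38

open Finset Filter Topology

theorem row_add {n : ℕ} {T : Matrix (Fin n) (Fin n) ℂ} (hT : ∀ a, ∑ b, ‖T a b‖ ≤ 1) (q j : ℕ)
    (i : Fin n) : ∑ b, ‖(T ^ (q + j)) i b‖ ≤ ∑ b, ‖(T ^ q) i b‖ := by
  induction j with
  | zero => exact le_rfl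
  | succ j ih =>
    refine le_trans ?_ ih
    rw [← add_assoc, pow_succ]
    calc ∑ b, ‖(T ^ (q + j) * T) i b‖ ≤ ∑ b, ∑ a, ‖(T ^ (q + j)) i a‖ * ‖T a b‖ :=
          sum_le_sum fun b _ => by
            rw [Matrix.mul_apply]
            exact (norm_sum_le _ _).trans (sum_le_sum fun a _ => (norm_mul _ _).le)
      _ ≤ _ := by
          rw [sum_comm]
          refine sum_le_sum fun a _ => ?_
          rw [← mul_sum]
          exact mul_le_of_le_one_right (norm_nonneg _) (hT a)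

theorem le_M {n : ℕ} {r : ℝ} {T : Matrix (Fin n) (Fin n) ℂ} (hT : ∀ a, ∑ b, ‖T a b‖ ≤ 1)
    (hs : ∀ z ∈ spectrum ℂ T, ‖z‖ ≤ r) (i : Fin n) {k : ℕ} (hk : n ^ 2 - n + 1 ≤ k) :
    ∑ b, ‖(T ^ k) i b‖ ≤ M n r := by
  have : Nonempty (Fin n) := ⟨i⟩
  have hrow : ∀ (T : Matrix (Fin n) (Fin n) ℂ) (i : Fin n), ∑ j, ‖T i j‖ ≤ opNorm T := fun T i =>
    le_ciSup (f := fun i => ∑ j, ‖T i j‖) (Set.finite_range _).bddAbove i
  obtain ⟨j, rfl⟩ := Nat.exists_eq_add_of_le hk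
  refine (row_add hT _ j i).trans ((hrow _ i).trans (le_csSup ⟨1, ?_⟩ ⟨T, ciSup_le hT, hs, rfl⟩))
  rintro t ⟨T', h1, -, rfl⟩
  refine ciSup_le fun a => ?_
  have := row_add (fun a => (hrow T' a).trans h1) 1 (n ^ 2 - n) a
  rw [add_comm, pow_one] at this
  exact this.trans ((hrow T' a).trans h1)

theorem H_le {n : ℕ} {r s : ℝ} (hr : 0 ≤ r) (h1 : r < s) (h2 : s ≤ 1) :
    H n r ≤ s ^ (n ^ 2 - n + 1) * ((1 - r * s) / (s - r)) ^ (n - 1) := by
  refine csInf_le ⟨0, ?_⟩ ⟨s, h1, h2, rfl⟩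
  rintro t ⟨x, a1, a2, rfl⟩
  exact mul_nonneg (pow_nonneg (by linarith) _)
    (pow_nonneg (div_nonneg (by nlinarith) (by linarith)) _)

theorem case_one {η τ r α b σ : ℝ} {s m q : ℕ} (hη : 0 < η) (hτ : τ ≤ 1 / 2) (hτ0 : 0 ≤ τ)
    (hr : η ≤ r) (hb : 0 < b) (ha : b * r < α) (h1 : r < σ) (h2 : σ ≤ 1)
    (h3 : QQ α b r (m + 1) (q + 1) σ = 0) (h4 : (1 - τ) * (1 - r * σ) ≤ α - b * σ) :
    σ ^ q * ((1 - r * σ) / (σ - r)) ^ (s + m) ≤
      ((q + 1) / η) ^ s / η * Real.exp (2 * τ * (m + 1)) * gg α b r (m + 1) (q + 1) σ := by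
  have hσ : 0 < σ := by linarith
  have hd : 0 < σ - r := by linarith
  set κ := (1 - r * σ) / (σ - r) with hκ
  have k1 : 1 ≤ κ := by rw [hκ, one_le_div hd]; nlinarith
  have hq : (0 : ℝ) < q + 1 := by positivity
  have k2 : κ ≤ (q + 1) / η := by
    unfold QQ at h3
    push_cast at h3
    have a1 : (q + 1) * ((α - b * σ) * (σ - r)) ≤ (q + 1) * ((α - b * r) * (σ - r)) := by
      gcongr
    have a2 : 1 * (α - b * r) * η ≤ (m + 1) * (α - b * r) * σ := by
      have : (0 : ℝ) ≤ m := Nat.cast_nonneg m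
      gcongr <;> linarith
    have a3 : η ≤ (q + 1) * (σ - r) :=
      le_of_mul_le_mul_left (by nlinarith) (show 0 < α - b * r by linarith)
    rw [hκ, div_le_div_iff₀ hd hη]
    nlinarith [mul_pos (mul_pos (hη.trans_le hr) hσ) hη]
  have k3 : κ ≤ Real.exp (2 * τ) * ((α - b * σ) / (σ - r)) := by
    rw [hκ, ← mul_div_assoc]
    refine div_le_div_of_nonneg_right ?_ hd.le
    have a0 : 0 ≤ 1 - r * σ := by nlinarith
    have a1 := Real.add_one_le_exp (2 * τ)
    have a2 : 0 ≤ (1 - τ) * (1 - r * σ) := mul_nonneg (by linarith) a0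
    nlinarith [mul_le_mul a1 h4 a2 (Real.exp_pos _).le, mul_nonneg (mul_nonneg hτ0 a0)
      (show 0 ≤ 1 - 2 * τ by linarith)]
  have k4 : κ ^ (s + m) ≤ ((q + 1) / η) ^ s *
      (Real.exp (2 * τ * (m + 1)) * ((α - b * σ) / (σ - r)) ^ (m + 1)) := by
    refine (pow_le_pow_right₀ k1 (show s + m ≤ s + (m + 1) by omega)).trans ?_
    rw [pow_add]
    refine mul_le_mul (pow_le_pow_left₀ (by linarith) k2 s) ?_ (by positivity) (by positivity)
    refine (pow_le_pow_left₀ (by linarith) k3 _).trans (le_of_eq ?_)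
    rw [mul_pow, ← Real.exp_nat_mul]
    congr 2
    push_cast
    ring
  have k5 : σ ^ q ≤ σ ^ (q + 1) / η := by
    rw [le_div_iff₀ hη, pow_succ]
    gcongr
    linarith
  refine (mul_le_mul k5 k4 (by positivity) (by positivity)).trans (le_of_eq ?_)
  unfold gg
  ring

theorem lower_main {η τ : ℝ} (hη : 0 < η) (hτ0 : 0 < τ) (hτ : τ ≤ 1 / 2) :
    ∃ (C : ℝ) (K n0 : ℕ), ∀ n ≥ n0, ∀ r, η ≤ r → r < 1 →
      H n r ≤ C * n ^ K * Real.exp (8 * τ * n) * M n r := by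
  set ρ := 1 - τ ^ 2 / 2 with hρ
  have ρ1 : ρ < 1 := by rw [hρ]; nlinarith
  have ρ2 : τ / 2 ≤ ρ - (1 - τ) := by rw [hρ]; nlinarith
  have ρ3 : 1 / 2 ≤ ρ := by rw [hρ]; nlinarith
  have ρ4 : 1 - τ ^ 2 ≤ ρ ^ 2 := by rw [hρ]; nlinarith [sq_nonneg (τ ^ 2)]
  obtain ⟨s, m0, hb⟩ := H32.base2 (r0 := 1 - τ) (ρ := ρ) (by linarith) (by linarith) ρ1
  refine ⟨(2 / η) ^ s / η * (4 * Real.exp 1) + 18 * Real.exp 1 / (τ * η), 2 * s + 2, s + m0 + 1,
    fun n hn r hr hr1 => ?_⟩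
  obtain ⟨m, rfl⟩ : ∃ m, n = s + m + 1 := ⟨n - s - 1, by omega⟩
  have hr0 : 0 < r := hη.trans_le hr
  set r1 := min r (1 - τ) with hr1d
  have b0 : 0 < r1 := lt_min hr0 (by linarith)
  have b1 : r1 ≤ 1 - τ := min_le_right _ _
  have b2 : r1 ≤ r := min_le_left _ _
  have b3 : (1 - τ) * r ≤ r1 := le_min (by nlinarith) (by nlinarith)
  set d := (1 - r) / (1 - r1) with hd
  have d0 : 0 < d := div_pos (by linarith) (by linarith)
  have d1 : d ≤ 1 := (div_le_one (by linarith)).2 (by linarith)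
  have d2 : 1 - d + d * r1 = r := by
    have : d * (1 - r1) = 1 - r := div_mul_cancel₀ _ (by linarith)
    linarith
  obtain ⟨T, hT, hs, i, hc⟩ := hb m (by omega) r1 d b0.le b1 d0.le d1
  rw [d2] at hs hc
  clear_value r1 d ρ
  have A0 : 0 < ρ ^ 2 - r1 ^ 2 := by nlinarith only [b0, b1, ρ2, hτ0]
  set α := d * (ρ ^ 2 - r1 ^ 2) + r1 * r with hα
  have ha : r1 * r < α := by rw [hα]; linarith only [mul_pos d0 A0]
  set s1 := 1 - d * (1 - ρ) with hs1
  have s2 : s1 - r = d * (ρ - r1) := by rw [hs1, ← d2]; ring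
  have s3 : α - r1 * s1 = d * ρ * (ρ - r1) := by rw [hα, hs1, ← d2]; ring
  have s4 : r < s1 := by linarith only [s2, mul_pos d0 (show 0 < ρ - r1 by linarith)]
  have s5 : s1 ≤ 1 := by rw [hs1]; linarith only [mul_pos d0 (sub_pos.2 ρ1)]
  set N : ℝ := ((s + m + 1 : ℕ) : ℝ) with hN
  have N1 : (m : ℝ) + 1 ≤ N := by rw [hN]; push_cast; linarith [Nat.cast_nonneg (α := ℝ) s]
  have N0 : 1 ≤ N := by linarith [Nat.cast_nonneg (α := ℝ) m]
  set q := (s + m + 1) ^ 2 - (s + m + 1) + 1 with hq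
  have hM0 : 0 ≤ M (s + m + 1) r := le_trans (by positivity) (le_M hT hs i le_rfl)
  have hcM : ∀ k, q ≤ k → (ρ ^ (m + 1))⁻¹ * cc r d (ρ ^ 2 - r1 ^ 2) r1 m k ≤
      2 * M (s + m + 1) r := fun k hk =>
    (mul_le_mul_of_nonneg_left (le_abs_self _) (by positivity)).trans
      ((hc k).trans (by linarith [le_M hT hs i hk]))
  have hE : 1 ≤ Real.exp (8 * τ * N) := Real.one_le_exp (by positivity)
  by_cases hQ : QQ α r1 r (m + 1) (q + 1) s1 ≤ 0
  · obtain ⟨σ, p1, p2, p3, p4⟩ := cc_lower hr0 d0 A0 b0 hα m q s4 hQ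
    have h4 : (1 - τ) * (1 - r * σ) ≤ α - r1 * σ := by
      have e1 : α - r1 * σ = d * (ρ ^ 2 - r1) + r1 * (1 - σ) := by rw [hα, ← d2]; ring
      have e2 : 1 - r * σ = d * (1 - r1) + r * (1 - σ) := by rw [← d2]; ring
      have a1 : (1 - τ) * (1 - r1) ≤ ρ ^ 2 - r1 := by nlinarith only [ρ4, b1, hτ0]
      rw [e1, e2]
      linarith only [mul_le_mul_of_nonneg_left a1 d0.le,
        mul_le_mul_of_nonneg_right b3 (show 0 ≤ 1 - σ by linarith)]
    have h5 := (H_le (n := s + m + 1) hr0.le p1 (p2.trans s5)).trans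
      (case_one (s := s) hη hτ hτ0.le hr b0 ha p1 (p2.trans s5) p3 h4)
    have hq2 : (q : ℝ) + 1 ≤ 2 * N ^ 2 := by
      have : q + 1 ≤ 2 * (s + m + 1) ^ 2 := by
        have h1 : s + m + 1 ≤ (s + m + 1) ^ 2 := Nat.le_self_pow two_ne_zero _
        omega
      rw [hN]; exact_mod_cast this
    have hg : 0 < gg α r1 r (m + 1) (q + 1) σ := by
      have := (qq_lt hr0 ha (Nat.le_add_left 1 m) p1 p3.le).1
      exact mul_pos (pow_pos (hr0.trans p1) _) (pow_pos (div_pos (by linarith) (by linarith)) _)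
    have hc0 : 0 ≤ cc r d (ρ ^ 2 - r1 ^ 2) r1 m q := by
      by_contra h
      have := mul_neg_of_pos_of_neg (show 0 < Real.exp 1 * d by positivity)
        (mul_neg_of_pos_of_neg (show (0 : ℝ) < q + 1 by positivity) (not_le.1 h))
      linarith
    have h6 : cc r d (ρ ^ 2 - r1 ^ 2) r1 m q ≤ 2 * M (s + m + 1) r :=
      (le_mul_of_one_le_left hc0 ((one_le_inv₀ (by positivity)).2
        (pow_le_one₀ (by linarith) ρ1.le))).trans (hcM q le_rfl)
    have h7 : gg α r1 r (m + 1) (q + 1) σ ≤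
        Real.exp 1 * 1 * (2 * N ^ 2 * (2 * M (s + m + 1) r)) := p4.trans (by gcongr)
    have h8 : Real.exp (2 * τ * (m + 1)) ≤ Real.exp (8 * τ * N) :=
      Real.exp_le_exp.2 (by nlinarith only [N1, N0, hτ0])
    have h9 : (((q : ℝ) + 1) / η) ^ s ≤ (2 * N ^ 2 / η) ^ s := by gcongr
    refine h5.trans (le_trans (b := (2 * N ^ 2 / η) ^ s / η * Real.exp (8 * τ * N) *
      (Real.exp 1 * 1 * (2 * N ^ 2 * (2 * M (s + m + 1) r)))) (by gcongr) ?_)
    have e : (2 * N ^ 2 / η) ^ s / η * Real.exp (8 * τ * N) *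
        (Real.exp 1 * 1 * (2 * N ^ 2 * (2 * M (s + m + 1) r))) =
        (2 / η) ^ s / η * (4 * Real.exp 1) * N ^ (2 * s + 2) * Real.exp (8 * τ * N) *
          M (s + m + 1) r := by
      rw [show 2 * N ^ 2 / η = 2 / η * N ^ 2 by ring, mul_pow, ← pow_mul]
      ring
    rw [e]
    gcongr
    exact le_add_of_nonneg_right (by positivity)
  · push Not at hQ
    have hρ0 : 0 < ρ := by linarith
    have hρr : 0 < ρ - r1 := by linarith
    have hP : 0 < (α - r1 * s1) * (s1 - r) := by rw [s2, s3]; positivity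
    have hex : ∃ k : ℕ, QQ α r1 r (m + 1) (k + 1) s1 ≤ 0 := by
      obtain ⟨k, hk⟩ := exists_nat_ge
        (((m + 1 : ℕ) : ℝ) * (α - r1 * r) * s1 / ((α - r1 * s1) * (s1 - r)))
      rw [div_le_iff₀ hP] at hk
      refine ⟨k, ?_⟩
      unfold QQ
      push_cast at hk ⊢
      linarith
    set k := Nat.find hex with hk
    have k1 : QQ α r1 r (m + 1) (k + 1) s1 ≤ 0 := Nat.find_spec hex
    have k2 : q < k := by
      by_contra h
      exact absurd ((qq_lt hr0 ha (Nat.le_add_left 1 m) s4 k1).2 (q + 1) (by omega)) (not_le.2 hQ)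
    have k3 : 0 < QQ α r1 r (m + 1) k s1 := by
      have := Nat.find_min hex (show k - 1 < k by omega)
      rw [show k - 1 + 1 = k by omega] at this
      exact not_le.1 this
    clear_value k
    obtain ⟨σ, p1, p2, p3, p4⟩ := cc_lower hr0 d0 A0 b0 hα m k s4 k1
    have s6 : r1 * s1 ^ 2 ≤ α * r := by
      have : α * r - r1 * s1 ^ 2 = (1 - d) * d * (ρ - r1) ^ 2 := by rw [hα, hs1, ← d2]; ring
      linarith only [this, mul_nonneg (mul_nonneg (sub_nonneg.2 d1) d0.le) (sq_nonneg (ρ - r1))]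
    have hs0 : 0 < s1 := hr0.trans s4
    have g1 : gg α r1 r (m + 1) k s1 ≤ gg α r1 r (m + 1) k σ := by
      refine gg_anti hr0 b0 p1 p2 (qq_lt hr0 ha (Nat.le_add_left 1 m) s4 k1).1 fun x hx => ?_
      have x0 : 0 < x := by linarith [hx.1]
      have a1 : r1 * x * s1 ≤ α * r := by
        linarith only [s6, mul_le_mul_of_nonneg_left hx.2 (mul_pos b0 hs0).le]
      have a2 : (α - r1 * x) * (x - r) * s1 ≤ (α - r1 * s1) * (s1 - r) * x := by
        linarith only [mul_nonneg (sub_nonneg.2 hx.2) (sub_nonneg.2 a1)]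
      unfold QQ at k3 ⊢
      refine le_of_mul_le_mul_right ?_ hs0
      linarith only [mul_le_mul_of_nonneg_left a2 (Nat.cast_nonneg (α := ℝ) k), mul_pos k3 x0]
    have g2 : gg α r1 r (m + 1) k s1 = s1 ^ k * ρ ^ (m + 1) := by
      unfold gg
      rw [s2, s3]
      congr 2
      have : ρ - r1 ≠ 0 := by linarith
      field_simp
    have g3 : d * k * τ ≤ 8 * N := by
      unfold QQ at k3
      rw [s2, s3, show α - r1 * r = d * ((ρ - r1) * (ρ + r1)) by rw [hα]; ring] at k3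
      push_cast at k3
      have a1 : k * d * (ρ * (ρ - r1)) ≤ (m + 1) * (ρ + r1) * s1 :=
        le_of_mul_le_mul_left (by linarith) (mul_pos d0 (show 0 < ρ - r1 by linarith))
      have a2 : ((m : ℝ) + 1) * (ρ + r1) * s1 ≤ N * 2 * 1 := by gcongr; linarith
      have a3 : 1 / 2 * (τ / 2) ≤ ρ * (ρ - r1) := by gcongr; linarith
      linarith only [a1, a2, mul_le_mul_of_nonneg_left a3 (show 0 ≤ k * d by positivity)]
    have g4 : 1 ≤ Real.exp (8 * τ * N) * s1 ^ k := by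
      have a1 : 1 ≤ Real.exp (d * τ ^ 2) * s1 := by
        have a2 := Real.add_one_le_exp (d * τ ^ 2)
        have a3 : s1 = 1 - d * τ ^ 2 / 2 := by rw [hs1, hρ]; ring
        have a4 : d * τ ^ 2 ≤ 1 := mul_le_one₀ d1 (by positivity) (by nlinarith only [hτ, hτ0])
        have a5 : 0 ≤ d * τ ^ 2 := by positivity
        have a6 := mul_le_mul_of_nonneg_right a2 hs0.le
        nth_rewrite 1 [a3] at a6
        nlinarith only [a6, a4, a5]
      have a6 := one_le_pow₀ (n := k) a1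
      rw [mul_pow, ← Real.exp_nat_mul] at a6
      refine a6.trans (mul_le_mul_of_nonneg_right (Real.exp_le_exp.2 ?_) (by positivity))
      linarith only [mul_le_mul_of_nonneg_left g3 hτ0.le]
    have g5 : η * (s1 ^ k * ρ ^ (m + 1)) ≤ gg α r1 r (m + 1) (k + 1) σ := by
      rw [← g2, show gg α r1 r (m + 1) (k + 1) σ = σ * gg α r1 r (m + 1) k σ by unfold gg; ring]
      exact mul_le_mul (by linarith) g1 (by rw [g2]; positivity) (by linarith)
    have g6 : d * (k + 1) ≤ 9 * N / τ := by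
      rw [le_div_iff₀ hτ0]; nlinarith only [g3, d1, hτ, N0, d0, hτ0]
    have g7 : η * s1 ^ k ≤ Real.exp 1 * (9 * N / τ) * (2 * M (s + m + 1) r) := by
      have a1 := mul_le_mul_of_nonneg_left (g5.trans p4) (show 0 ≤ (ρ ^ (m + 1))⁻¹ by positivity)
      have a2 : (ρ ^ (m + 1))⁻¹ * (η * (s1 ^ k * ρ ^ (m + 1))) = η * s1 ^ k := by field_simp
      have a3 := mul_le_mul_of_nonneg_left (hcM k k2.le)
        (show 0 ≤ Real.exp 1 * (d * (k + 1)) by positivity)
      have a4 : Real.exp 1 * (d * (k + 1)) * (2 * M (s + m + 1) r) ≤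
        Real.exp 1 * (9 * N / τ) * (2 * M (s + m + 1) r) := by gcongr
      rw [a2] at a1
      linarith
    have g8 : H (s + m + 1) r ≤ 1 := by
      have := H_le (n := s + m + 1) hr0.le hr1 le_rfl
      rwa [one_pow, mul_one, div_self (by linarith), one_pow, mul_one] at this
    have g9 : s1 ^ k ≤ 18 * Real.exp 1 / (τ * η) * N * M (s + m + 1) r := by
      refine le_of_mul_le_mul_left (g7.trans (le_of_eq ?_)) hη
      field_simp
      ring
    have g10 : N ≤ N ^ (2 * s + 2) := le_self_pow₀ N0 (by omega)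
    refine g8.trans (g4.trans ((mul_le_mul_of_nonneg_left g9 (by positivity)).trans ?_))
    rw [mul_right_comm _ (Real.exp _), mul_comm (Real.exp _)]
    gcongr
    exact le_add_of_nonneg_left (by positivity)

theorem lower_eps {ε η : ℝ} (hε : 0 < ε) (hη : 0 < η) : ∃ n0 : ℕ, ∀ n ≥ n0, ∀ r, η ≤ r → r < 1 →
    Real.exp (-(ε * n)) * H n r ≤ M n r := by
  obtain ⟨C, K, n0, h⟩ := lower_main hη (τ := min (ε / 16) (1 / 2)) (by positivity)
    (min_le_right _ _)
  have h1 : Tendsto (fun n : ℕ => C * ((n : ℝ) ^ K * Real.exp (-(ε / 2)) ^ n)) atTop (𝓝 (C * 0)) :=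
    (tendsto_pow_const_mul_const_pow_of_abs_lt_one K (by
      rw [abs_of_pos (Real.exp_pos _), Real.exp_lt_one_iff]; linarith)).const_mul C
  obtain ⟨n1, hn1⟩ := eventually_atTop.1 (h1.eventually (gt_mem_nhds (by simp : C * 0 < 1)))
  refine ⟨max n0 (n1 + 1), fun n hn r hr hr1 => ?_⟩
  have h2 := h n (le_of_max_le_left hn) r hr hr1
  have h3 := hn1 n (by have := le_of_max_le_right hn; omega)
  have hM : 0 ≤ M n r := Real.sSup_nonneg (by
    rintro t ⟨T, -, -, rfl⟩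
    exact Real.iSup_nonneg fun _ => by positivity)
  by_cases hC : C ≤ 0
  · refine le_trans (mul_nonpos_of_nonneg_of_nonpos (Real.exp_pos _).le (h2.trans ?_)) hM
    exact mul_nonpos_of_nonpos_of_nonneg (mul_nonpos_of_nonpos_of_nonneg
      (mul_nonpos_of_nonpos_of_nonneg hC (by positivity)) (Real.exp_pos _).le) hM
  push Not at hC
  refine (mul_le_mul_of_nonneg_left h2 (Real.exp_pos _).le).trans ?_
  rw [← mul_assoc]
  refine mul_le_of_le_one_left hM (le_trans ?_ h3.le)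
  rw [← Real.exp_nat_mul, mul_left_comm, ← Real.exp_add, mul_assoc]
  gcongr
  nlinarith [mul_le_mul_of_nonneg_right (min_le_left (ε / 16) (1 / 2)) (Nat.cast_nonneg (α := ℝ) n)]

end Pool.Agent.MP_c71a08_an.H38
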