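import Pool.Agent.MP_c71a08_an.H38.Upper

/-!
A lower bound of saddle point type for the recessive solution of a three term recurrence.
-/

set_option autoImplicit false

namespace Pool.Agent.MP_c71a08_an.H38

open Polynomial Finset Filter Topology

/-- The function that is minimised at the saddle point. -/
noncomputable def gg (α b r : ℝ) (m k : ℕ) (s : ℝ) : ℝ := s ^ k * ((α - b * s) / (s - r)) ^ m

/-- The saddle point equation. -/
def QQ (α b r : ℝ) (m k : ℕ) (x : ℝ) : ℝ := m * (α - b * r) * x - k * ((α - b * x) * (x - r))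

variable {α b r : ℝ} {m : ℕ}

theorem gg_anti (hr : 0 < r) (hb : 0 < b) {k : ℕ} {s σ : ℝ} (hs : r < s) (hsσ : s ≤ σ)
    (hσ : b * σ < α) (h : ∀ x ∈ Set.Icc s σ, 0 ≤ QQ α b r m k x) :
    gg α b r m k σ ≤ gg α b r m k s := by
  have hpos : ∀ x ∈ Set.Icc s σ, 0 < x ∧ 0 < α - b * x ∧ 0 < x - r := fun x hx =>
    ⟨by linarith [hx.1], by nlinarith [hx.2], by linarith [hx.1]⟩
  have hd : ∀ x ∈ Set.Icc s σ, HasDerivAt
      (fun x => k * Real.log x + m * (Real.log (α - b * x) - Real.log (x - r)))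
      (k * x⁻¹ + m * ((-(b * 1)) / (α - b * x) - 1 / (x - r))) x := fun x hx => by
    obtain ⟨h1, h2, h3⟩ := hpos x hx
    exact ((Real.hasDerivAt_log h1.ne').const_mul _).add
      ((((((hasDerivAt_id x).const_mul b).const_sub α).log h2.ne').sub
        (((hasDerivAt_id x).sub_const r).log h3.ne')).const_mul _)
  have han : AntitoneOn (fun x => k * Real.log x + m * (Real.log (α - b * x) - Real.log (x - r)))
      (Set.Icc s σ) := by
    refine antitoneOn_of_deriv_nonpos (convex_Icc s σ)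
      (fun x hx => (hd x hx).continuousAt.continuousWithinAt)
      (fun x hx => (hd x (interior_subset hx)).differentiableAt.differentiableWithinAt)
      fun x hx => ?_
    have hx' := interior_subset hx
    obtain ⟨h1, h2, h3⟩ := hpos x hx'
    have e : (k : ℝ) * x⁻¹ + m * ((-(b * 1)) / (α - b * x) - 1 / (x - r)) =
        -QQ α b r m k x / (x * ((α - b * x) * (x - r))) := by
      unfold QQ
      have e1 : α - b * r = (α - b * x) + b * (x - r) := by ring
      rw [e1]
      generalize α - b * x = u at h2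
      generalize x - r = v at h3
      field_simp
      ring
    rw [(hd x hx').deriv, e]
    exact div_nonpos_of_nonpos_of_nonneg (by linarith [h x hx']) (by positivity)
  have he : ∀ x ∈ Set.Icc s σ, gg α b r m k x =
      Real.exp (k * Real.log x + m * (Real.log (α - b * x) - Real.log (x - r))) := fun x hx => by
    obtain ⟨h1, h2, h3⟩ := hpos x hx
    rw [Real.exp_add, Real.exp_nat_mul, Real.exp_nat_mul, Real.exp_sub, Real.exp_log h1,
      Real.exp_log h2, Real.exp_log h3, gg]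
  rw [he _ ⟨hsσ, le_rfl⟩, he _ ⟨le_rfl, hsσ⟩, Real.exp_le_exp]
  exact han ⟨le_rfl, hsσ⟩ ⟨hsσ, le_rfl⟩ hsσ

theorem qq_lt (hr : 0 < r) (ha : b * r < α) (hm : 1 ≤ m) {k : ℕ} {s : ℝ} (hs : r < s)
    (h : QQ α b r m k s ≤ 0) : b * s < α ∧ ∀ j, k ≤ j → QQ α b r m j s ≤ 0 := by
  have hm' : (1 : ℝ) ≤ m := by exact_mod_cast hm
  have h1 : 0 < m * (α - b * r) * s := mul_pos (mul_pos (by linarith) (by linarith)) (by linarith)
  have h2 : 0 < (α - b * s) * (s - r) := by
    by_contra h3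
    push Not at h3
    have := mul_nonpos_of_nonneg_of_nonpos (Nat.cast_nonneg (α := ℝ) k) h3
    unfold QQ at h
    linarith
  refine ⟨by nlinarith [(mul_pos_iff_of_pos_right (sub_pos.2 hs)).1 h2], fun j hj => ?_⟩
  have : (k : ℝ) ≤ j := by exact_mod_cast hj
  unfold QQ at h ⊢
  nlinarith

theorem root (hr : 0 < r) (hb : 0 < b) (ha : b * r < α) (hm : 1 ≤ m) {k : ℕ} (hk : 1 ≤ k) {s : ℝ}
    (hs : r < s) (h : QQ α b r m k s ≤ 0) :
    ∃ σ, r < σ ∧ σ ≤ s ∧ QQ α b r m k σ = 0 ∧ ∀ x ≤ σ, 0 ≤ QQ α b r m k x := by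
  have hm' : (1 : ℝ) ≤ m := by exact_mod_cast hm
  have hk' : (1 : ℝ) ≤ k := by exact_mod_cast hk
  set u := k * b with hu
  set v := k * (α + r * b) - m * (α - b * r) with hv
  set w := k * α * r with hw
  have hQ : ∀ x, QQ α b r m k x = u * x ^ 2 - v * x + w := fun x => by
    unfold QQ; rw [hu, hv, hw]; ring
  have hu0 : 0 < u := by positivity
  have hQr : 0 < u * r ^ 2 - v * r + w := by
    rw [← hQ]; unfold QQ
    have : 0 < m * (α - b * r) * r := mul_pos (mul_pos (by linarith) (by linarith)) hr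
    simpa using this
  simp only [hQ] at h ⊢
  clear_value u v w
  have hD : (2 * u * s - v) ^ 2 ≤ v ^ 2 - 4 * u * w := by nlinarith
  set d := √(v ^ 2 - 4 * u * w) with hd
  have hd0 : 0 ≤ d := Real.sqrt_nonneg _
  have hd2 : d ^ 2 = v ^ 2 - 4 * u * w := Real.sq_sqrt ((sq_nonneg _).trans hD)
  have hd3 := abs_le.1 (Real.abs_le_sqrt hD)
  set σ := (v - d) / (2 * u) with hσ
  have hσ1 : 2 * u * σ = v - d := by rw [hσ]; field_simp
  have hf : ∀ x, 4 * u * (u * x ^ 2 - v * x + w) = (2 * u * x - v - d) * (2 * u * x - v + d) :=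
    fun x => by linear_combination hd2
  refine ⟨σ, ?_, by nlinarith [hd3.1], ?_, fun x hx => ?_⟩
  · by_contra h1
    push Not at h1
    have h2 : 0 ≤ 2 * u * r - v + d := by nlinarith
    have h3 : 2 * u * r - v - d ≤ 0 := by nlinarith [hd3.2]
    nlinarith [hf r, mul_nonneg_of_nonpos_of_nonpos h3 (neg_nonpos.2 h2), mul_pos hu0 hQr]
  · have := hf σ
    rw [show 2 * u * σ - v + d = 0 by linarith, mul_zero] at this
    exact (mul_eq_zero.1 this).resolve_left (by positivity)
  · have h2 : 2 * u * x - v + d ≤ 0 := by nlinarith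
    have h3 := mul_nonneg_of_nonpos_of_nonpos (show 2 * u * x - v - d ≤ 0 by linarith) h2
    rw [← hf] at h3
    exact le_of_mul_le_mul_left (by rw [mul_zero]; exact h3) (show 0 < 4 * u by positivity)

section rec

variable {y : ℕ → ℝ}

theorem barrier (hr : 0 < r) (hb : 0 < b) (ha : b * r < α) (hm : 1 ≤ m)
    (hrec : ∀ k : ℕ, 1 ≤ k → b * (k + 1) * y (k + 2) =
      ((k + 1) * (α + r * b) - m * (α - b * r)) * y (k + 1) - (k + 1) * α * r * y k)
    {s : ℝ} (hs : r < s) (hdec : Tendsto (fun K => y K / s ^ K) atTop (𝓝 0)) {k : ℕ}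
    (h : QQ α b r m (k + 2) s ≤ 0) (hy : 0 ≤ y (k + 1)) : y (k + 2) ≤ s * y (k + 1) := by
  by_contra hc
  push Not at hc
  have hs0 : 0 < s := hr.trans hs
  have hα : 0 < α := by nlinarith
  have hp : 0 < y (k + 2) := lt_of_le_of_lt (by positivity) hc
  have key : ∀ j, s ^ j * y (k + 2) ≤ y (k + 2 + j) ∧ s * y (k + 1 + j) ≤ y (k + 2 + j) := by
    intro j
    induction j with
    | zero => simpa using hc.le
    | succ j ih =>
      have h1 := hrec (k + 1 + j) (by omega)
      have h2 := (qq_lt hr ha hm hs h).2 (k + 2 + j) (by omega)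
      have h3 : 0 < y (k + 2 + j) := lt_of_lt_of_le (by positivity) ih.1
      rw [show k + 1 + j + 2 = k + 2 + (j + 1) by ring, show k + 1 + j + 1 = k + 2 + j by ring] at h1
      unfold QQ at h2
      push_cast at h1 h2
      set n : ℝ := k + 1 + j + 1 with hn
      rw [show (k : ℝ) + 2 + j = n by rw [hn]; ring] at h2
      have hn0 : 0 < n := by positivity
      have h4 : s * y (k + 2 + j) ≤ y (k + 2 + (j + 1)) := by
        refine le_of_mul_le_mul_left ?_ (show 0 < s * b * n by positivity)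
        have h5 := mul_le_mul_of_nonneg_left ih.2 (show 0 ≤ n * α * r by positivity)
        have h6 := mul_le_mul_of_nonneg_right h2 h3.le
        have h7 : s * b * n * y (k + 2 + (j + 1)) = s * (b * n * y (k + 2 + (j + 1))) := by ring
        rw [h7, h1]
        nlinarith
      refine ⟨?_, by rw [show k + 1 + (j + 1) = k + 2 + j by ring]; exact h4⟩
      rw [pow_succ', mul_assoc]
      exact (mul_le_mul_of_nonneg_left ih.1 hs0.le).trans h4
  have h1 : y (k + 2) / s ^ (k + 2) ≤ 0 := by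
    refine ge_of_tendsto hdec (eventually_atTop.2 ⟨k + 2, fun K hK => ?_⟩)
    obtain ⟨j, rfl⟩ := Nat.exists_eq_add_of_le hK
    rw [div_le_div_iff₀ (by positivity) (by positivity), pow_add]
    nlinarith [mul_le_mul_of_nonneg_left (key j).1 (show 0 ≤ s ^ (k + 2) by positivity)]
  exact absurd h1 (not_le.2 (by positivity))

theorem back (hr : 0 < r) (hb : 0 < b) (ha : b * r < α) (hm : 1 ≤ m)
    (hrec : ∀ k : ℕ, 1 ≤ k → b * (k + 1) * y (k + 2) =
      ((k + 1) * (α + r * b) - m * (α - b * r)) * y (k + 1) - (k + 1) * α * r * y k)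
    {s : ℝ} (hs : r < s) (hdec : Tendsto (fun K => y K / s ^ K) atTop (𝓝 0)) {k : ℕ} (hk : 1 ≤ k)
    (h : QQ α b r m (k + 1) s ≤ 0) (hy : 0 ≤ y (k + 1)) : y (k + 1) ≤ s * y k := by
  have hs0 : 0 < s := hr.trans hs
  have hα : 0 < α := by nlinarith
  have h1 := barrier hr hb ha hm hrec hs hdec ((qq_lt hr ha hm hs h).2 (k + 2) (by omega)) hy
  have h2 := hrec k hk
  unfold QQ at h
  push_cast at h
  set n : ℝ := k + 1 with hn
  have hn0 : 0 < n := by positivity
  refine le_of_mul_le_mul_left ?_ (show 0 < n * α * r by positivity)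
  have h5 := mul_le_mul_of_nonneg_left h1 (show 0 ≤ s * b * n by positivity)
  have h6 := mul_le_mul_of_nonneg_right h hy
  have h7 : s * b * n * y (k + 2) = s * (b * n * y (k + 2)) := by ring
  rw [h7, h2] at h5
  nlinarith

theorem saddle (hr : 0 < r) (hb : 0 < b) (ha : b * r < α) (hm : 1 ≤ m)
    (hrec : ∀ k : ℕ, 1 ≤ k → b * (k + 1) * y (k + 2) =
      ((k + 1) * (α + r * b) - m * (α - b * r)) * y (k + 1) - (k + 1) * α * r * y k)
    {ℓ : ℝ} (hℓ : 0 < ℓ) (hlim : Tendsto (fun K : ℕ => y K / (K ^ m * r ^ K)) atTop (𝓝 ℓ))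
    {k0 : ℕ} (hk0 : 1 ≤ k0) {s : ℝ} (hs : r < s) (h : QQ α b r m k0 s ≤ 0) :
    ∃ σ, r < σ ∧ σ ≤ s ∧ QQ α b r m k0 σ = 0 ∧
      ℓ * gg α b r m k0 σ ≤ y k0 * (Real.exp 1 * (α - b * r) / (r * m)) ^ m := by
  have hm' : (1 : ℝ) ≤ m := by exact_mod_cast hm
  have hdec : ∀ s, r < s → Tendsto (fun K => y K / s ^ K) atTop (𝓝 0) := fun s hs => by
    have hs0 : 0 < s := hr.trans hs
    have h1 := tendsto_pow_const_mul_const_pow_of_abs_lt_one m
      (show |r / s| < 1 by rw [abs_of_pos (by positivity), div_lt_one hs0]; exact hs)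
    have h2 := hlim.mul h1
    rw [mul_zero] at h2
    refine h2.congr' (eventually_atTop.2 ⟨1, fun K hK => ?_⟩)
    have : (0 : ℝ) < K := by exact_mod_cast hK
    simp only [div_pow]
    field_simp
  choose! σ hσ using fun k (hk : k0 ≤ k) =>
    root hr hb ha hm (hk0.trans hk) hs ((qq_lt hr ha hm hs h).2 k hk)
  have hbσ : ∀ k, k0 ≤ k → b * σ k < α := fun k hk =>
    (qq_lt hr ha hm (hσ k hk).1 (hσ k hk).2.2.1.le).1
  have hg0 : ∀ j k, k0 ≤ k → 0 < gg α b r m j (σ k) := fun j k hk => by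
    have h1 := (hσ k hk).1
    exact mul_pos (pow_pos (hr.trans h1) _)
      (pow_pos (div_pos (by linarith [hbσ k hk]) (by linarith)) _)
  have hmono : ∀ k, k0 ≤ k → σ (k + 1) ≤ σ k := fun k hk => by
    by_contra hc
    push Not at hc
    have h1 := (hσ (k + 1) (by omega)).2.2.2 _ hc.le
    have h2 := (hσ k hk).2.2.1
    have h3 : 0 < (α - b * σ k) * (σ k - r) :=
      mul_pos (by linarith [hbσ k hk]) (by linarith [(hσ k hk).1])
    unfold QQ at h1 h2
    push_cast at h1
    linarith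
  have chain : ∀ d k, k0 ≤ k → 0 < y (k + d) → 0 < y k ∧
      y (k + d) * gg α b r m k (σ k) ≤ y k * gg α b r m (k + d) (σ (k + d)) := by
    intro d
    induction d with
    | zero => intro k _ hy; exact ⟨hy, le_rfl⟩
    | succ d ih =>
      intro k hk hy
      rw [show k + (d + 1) = k + 1 + d by ring] at hy ⊢
      obtain ⟨h1, h2⟩ := ih (k + 1) (by omega) hy
      obtain ⟨p1, -, p3, -⟩ := hσ (k + 1) (by omega)
      have h3 := back hr hb ha hm hrec p1 (hdec _ p1) (hk0.trans hk) p3.le h1.le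
      have hσ0 : 0 < σ (k + 1) := hr.trans p1
      have h4 : gg α b r m k (σ k) ≤ gg α b r m k (σ (k + 1)) :=
        gg_anti hr hb p1 (hmono k hk) (hbσ k hk) fun x hx => (hσ k hk).2.2.2 x hx.2
      have h5 : gg α b r m (k + 1) (σ (k + 1)) = σ (k + 1) * gg α b r m k (σ (k + 1)) := by
        unfold gg; ring
      have h6 := hg0 (k + 1 + d) (k + 1 + d) (by omega)
      refine ⟨(mul_pos_iff_of_pos_left hσ0).1 (h1.trans_le h3), ?_⟩
      refine le_of_mul_le_mul_left ?_ hσ0
      rw [h5] at h2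
      nlinarith [mul_le_mul_of_nonneg_left h4 (mul_pos hσ0 hy).le,
        mul_le_mul_of_nonneg_right h3 h6.le]
  refine ⟨σ k0, (hσ k0 le_rfl).1, (hσ k0 le_rfl).2.1, (hσ k0 le_rfl).2.2.1, ?_⟩
  refine le_of_tendsto (hlim.mul_const _) ?_
  filter_upwards [hlim.eventually (lt_mem_nhds hℓ), eventually_ge_atTop k0] with K h1 hK
  have hK0 : (0 : ℝ) < K := by exact_mod_cast hk0.trans hK
  have hy : 0 < y K := by
    have := mul_pos h1 (show 0 < (K : ℝ) ^ m * r ^ K by positivity)
    rwa [div_mul_cancel₀ _ (by positivity)] at this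
  obtain ⟨d, rfl⟩ := Nat.exists_eq_add_of_le hK
  obtain ⟨h2, h3⟩ := chain d k0 le_rfl hy
  set K := k0 + d
  obtain ⟨p1, -, p3, p4⟩ := hσ K hK
  have hmK : 0 < (m : ℝ) / K := by positivity
  have h4 : r * (1 + m / K) ≤ σ K := by
    unfold QQ at p3
    have h5 : K * ((α - b * σ K) * (σ K - r)) ≤ K * ((α - b * r) * (σ K - r)) := by
      gcongr
    have h6 : m * (α - b * r) * r ≤ m * (α - b * r) * σ K := by
      gcongr
    have h7 : m * r ≤ K * (σ K - r) :=
      le_of_mul_le_mul_left (by nlinarith) (show 0 < α - b * r by linarith)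
    have h8 : r * (m / K) ≤ σ K - r := by
      rw [← mul_div_assoc, div_le_iff₀ hK0]; linarith
    linarith
  have h5 : gg α b r m K (σ K) ≤ gg α b r m K (r * (1 + m / K)) :=
    gg_anti hr hb (by nlinarith) h4 (hbσ K hK) fun x hx => p4 x hx.2
  have h6 : gg α b r m K (r * (1 + m / K)) ≤
      K ^ m * r ^ K * (Real.exp 1 * (α - b * r) / (r * m)) ^ m := by
    have e1 : (1 + (m : ℝ) / K) ^ K ≤ Real.exp 1 ^ m := by
      have h := pow_le_pow_left₀ (by positivity) (Real.add_one_le_exp ((m : ℝ) / K)) K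
      rw [add_comm, ← Real.exp_nat_mul, mul_div_cancel₀ _ hK0.ne'] at h
      rwa [← Real.exp_nat_mul, mul_one]
    have e0 : 0 ≤ α - b * (r * (1 + m / K)) := by nlinarith [hbσ K hK]
    have e2 : (α - b * (r * (1 + m / K))) / (r * (1 + m / K) - r) ≤
        K * ((α - b * r) / (r * m)) := by
      rw [show r * (1 + (m : ℝ) / K) - r = r * m / K by ring, div_div_eq_mul_div, mul_comm,
        mul_div_assoc]
      gcongr
      nlinarith [mul_pos (mul_pos hb hr) hmK]
    have e3 := pow_le_pow_left₀ (div_nonneg e0 (by nlinarith)) e2 m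
    unfold gg
    rw [mul_pow]
    refine (mul_le_mul (mul_le_mul_of_nonneg_left e1 (by positivity)) e3
      (pow_nonneg (div_nonneg e0 (by nlinarith)) _) (by positivity)).trans (le_of_eq ?_)
    rw [mul_div_assoc, mul_pow, mul_pow]
    ring
  rw [div_mul_eq_mul_div, div_le_iff₀ (by positivity)]
  nlinarith [mul_le_mul_of_nonneg_left (h5.trans h6) h2.le]

end rec

end Pool.Agent.MP_c71a08_an.H38
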